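import Pool.Agent.Lib.MP_634dc6_al.S.SGood

/-!
A chief factor with few classes is acted on by a bounded number of components.
-/

namespace Pool.Agent.Lib.MP_634dc6_al

variable {G : Type} [Group G] [Finite G] {ι : Type} [Finite ι] {M q : ℕ}
  {D R A B E : Subgroup G} {K : ι → Subgroup G}

/-- Up to bounded index `E` is soluble modulo the centraliser of `V`. -/
theorem lin_sol (M κ : ℕ) : ∃ b : ℕ, ∀ (G : Type) [Group G] [Finite G] (V E : Subgroup G),
    MinNor V → ⁅V, V⁆ = ⊥ → E.Normal → Sm M E → om (V : Set G) ≤ κ →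
    ∃ U : Subgroup G, U.Normal ∧ U.relIndex E ≤ b ∧
      ∀ P : Subgroup G, P ≤ E → ⁅P, P⁆ = P → P ≤ U → P ≤ cz V := by
  obtain ⟨C, h₁⟩ := lin_loc M
  obtain ⟨T, hT⟩ : ∃ T, T = (C * (C * κ ^ 4) + 1) * (C * κ ^ 4) := ⟨_, rfl⟩
  refine ⟨(T * (T * κ) + 1) ^ κ + (κ + 1) ^ κ, fun G _ _ V E hmin hab hE hS hκ => ?_⟩
  have := hmin.1
  obtain ⟨ι, _, F, J, Λ, hs⟩ := exists_fs (cz V) E hS
  have := hs.nF
  obtain ⟨W, h⟩ := exists_bd hmin hab F
  obtain ⟨γ, h1, h2, h3, h4, h5⟩ := h₁ G ι V E F J W Λ h hs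
  have h7 := h.index_lt.le.trans hκ
  by_cases hc : ⁅F, F⁆ ≤ cz V
  · have hN : (⨅ g : G, cj g (nz (ky F W))).Normal := ⟨fun x hx a => Subgroup.mem_iInf.2 fun g => by
      have h8 := mem_cj.1 (Subgroup.mem_iInf.1 hx (a⁻¹ * g))
      rw [mem_cj]
      rwa [show g⁻¹ * (a * x * a⁻¹) * g = (a⁻¹ * g)⁻¹ * x * (a⁻¹ * g) by group]⟩
    refine ⟨_, hN, le_trans ?_ (Nat.le_add_left _ _), fun P hPE hP hPU => ?_⟩
    · refine (core_idx (S := nz (ky F W)) Subgroup.le_normalizer E).trans ?_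
      refine (Nat.pow_le_pow_left (le_trans (Subgroup.relIndex_le_of_le_right le_top
        Subgroup.FiniteIndex.index_ne_zero) ((Subgroup.relIndex_top_right _).le.trans
          (h7.trans κ.le_succ))) _).trans (Nat.pow_le_pow_right κ.succ_pos h7)
    · have h8 : kz F W = F := inf_eq_left.2 fun f hf =>
        h.mem_cm le_rfl (h.le_nz hf) fun x hx => h.cz_le (comm_le_iff.1 hc f hf x hx)
      rw [h8] at h5
      have h9 : P ≤ F := fun l hl => hs.self ⟨hPE hl, h.mem_cm_cz fun g => by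
        have h10 : cj g⁻¹ P ≤ nz (ky F W) := fun x hx => by
          have h11 := mem_cj.1 (Subgroup.mem_iInf.1 (hPU (mem_cj.1 hx)) g)
          rwa [show g⁻¹ * (g⁻¹⁻¹ * x * g⁻¹) * g = x by group] at h11
        refine h5 (Subgroup.commutator_mono h10 h10 ?_)
        rw [← cj_commutator, hP, mem_cj]
        rwa [show g⁻¹⁻¹ * (g⁻¹ * l * g) * g⁻¹ = l by group]⟩
      exact hP.ge.trans ((Subgroup.commutator_mono h9 h9).trans hc)
  · have h6 : Nat.card W ≤ C * κ ^ 4 :=
      (lin_orb h hc h1 h2).trans (Nat.mul_le_mul_left _ (Nat.pow_le_pow_left hκ 4))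
    have h11 : 1 ≤ Nat.log 2 (Nat.card W) := Nat.le_log_of_pow_le one_lt_two h.two_le
    have h12 : γ ≤ C * (C * κ ^ 4) + 1 :=
      (((Nat.le_mul_of_pos_left γ h11).trans ((Nat.le_self_pow (by norm_num) _).trans h1)).trans
        (Nat.mul_le_mul_left _ h6)).trans (Nat.le_succ _)
    have h13 : (cm F (ky F W)).relIndex (nz (ky F W)) ≤ T := by
      rw [hT]
      exact (relIndex_le_mul _ (cm_le_nz _ _)).trans (Nat.mul_le_mul (h2.trans h12) (h3.trans h6))
    have h14 : (ky F W).relIndex (kz F W) ≤ T := by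
      rw [hT]
      exact (h4.trans h6).trans (Nat.le_mul_of_pos_left _ (Nat.succ_pos _))
    refine ⟨cz V, inferInstance, ((lin_ord h hs.self h13 h14).trans ?_).trans (Nat.le_add_right _ _),
      fun P _ _ hP => hP⟩
    exact (Nat.pow_le_pow_left ((Nat.mul_le_mul_left T (Nat.mul_le_mul_left T hκ)).trans
      (Nat.le_succ _)) _).trans (Nat.pow_le_pow_right (Nat.succ_pos _) hκ)

theorem GS.two_pow_le (h : GS M D R K) (hD : Group.IsSolvable D) {U : Subgroup G} [U.Normal]
    (hE : ∀ i, K i ≤ E) (hDE : D ≤ E) {S : Set ι} (hS : ∀ i ∈ S, ¬ res (K i) ≤ U) :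
    2 ^ S.ncard ≤ U.relIndex E := by
  have := h.nD
  have h1 := doubling (D ⊔ U) (fun i => res (K i)) S.toFinite.toFinset
    fun j hj h2 => by
      refine hS j ((Set.Finite.mem_toFinset _).1 hj) (perf_le_of_sol hD (res_perf _) ?_)
      rw [← res_perf (K j), ← le_cm]
      refine h2.trans (sup_le (le_cm.2 (Subgroup.commutator_le_left _ _)) (jn_le fun i hi => ?_))
      exact le_cm.2 (((Subgroup.commutator_mono (res_le _) (res_le _)).trans
        (h.comm i j hi.2)).trans le_sup_left)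
  rw [← Set.ncard_eq_toFinset_card] at h1
  have h2 : Nat.card ↥(U ⊔ E) = U.relIndex E * Nat.card U := by
    rw [← Subgroup.relIndex_sup_left E, ← (U.subgroupOf (U ⊔ E)).index_mul_card,
      Nat.card_congr (Subgroup.subgroupOfEquivOfLe le_sup_left).toEquiv]
    rfl
  refine Nat.le_of_mul_le_mul_right (c := Nat.card U) ?_ Nat.card_pos
  rw [← h2]
  refine le_trans (Nat.mul_le_mul_left _ (Subgroup.card_le_of_le le_sup_right))
    (h1.trans (Subgroup.card_le_of_le ?_))
  exact sup_le (sup_le (hDE.trans le_sup_right) le_sup_left)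
    (jn_le fun i _ => ((res_le _).trans (hE i)).trans le_sup_right)

/-- Only boundedly many components act nontrivially on a normal `q`-subgroup with few classes. -/
theorem act_few (M κ : ℕ) : ∃ b : ℕ, ∀ (G : Type) [Group G] [Finite G] (ι : Type) [Finite ι]
    (M' q : ℕ) (D R E Ω : Subgroup G) (K : ι → Subgroup G), GS M' D R K → Group.IsSolvable D →
    E.Normal → Sm M E → D ≤ E → (∀ i, K i ≤ E) → q.Prime → Ω.Normal → IsPGroup q Ω →
    om (Ω : Set G) ≤ κ → {i | ⁅Ω, res (K i)⁆ ≠ ⊥}.ncard ≤ b := by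
  classical
  obtain ⟨b, hb⟩ := lin_sol M κ
  refine ⟨κ * b, fun G _ _ ι _ M' q D R E Ω K h hD hE hS hDE hK hq hn hΩ hκ => ?_⟩
  obtain ⟨l, N, h0, hl, hN, hm, hc⟩ := exists_chief Ω
  have h1 : ∀ j < l, (act K (N j) (N (j + 1))).ncard ≤ b := fun j hj => by
    have hs := QuotientGroup.mk'_surjective (N j)
    have h2 : N (j + 1) ≤ Ω := hl ▸ hm hj
    have hp := (hΩ.to_le h2).map (QuotientGroup.mk' (N j))
    have hV := (hc j hj).minNor
    have := hV.1
    obtain ⟨U, hU, h3, h4⟩ := hb (G ⧸ N j) _ (E.map (QuotientGroup.mk' (N j))) hV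
      (hV.comm_pgroup hq hp hp) (hE.map _ hs)
      (hS.of_surjective _ (MonoidHom.subgroupMap_surjective _ E))
      (((Subgroup.coe_map _ _).le.trans_eq rfl |> om_mono).trans
        ((om_map_le _ _).trans ((om_mono h2).trans hκ)))
    rw [← Subgroup.relIndex_comap] at h3
    refine (Nat.lt_two_pow_self.le.trans (h.two_pow_le hD hK hDE fun i hi h5 => ?_)).trans h3
    refine act_iff.1 hi ?_
    rw [← comap_cz_map, ← Subgroup.map_le_iff_le_comap]
    exact h4 _ (Subgroup.map_mono ((res_le _).trans (hK i))) (map_perf _ (res_perf _))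
      (Subgroup.map_le_iff_le_comap.2 h5)
  have h2 : l ≤ κ := by
    have h3 := sum_om_chief N hm l
    have h4 := Finset.card_nsmul_le_sum (Finset.range l) (fun j =>
      om ((N (j + 1)).map (QuotientGroup.mk' (N j)) : Set (G ⧸ N j)) - 1) 1 fun j hj => by
        have := two_le_om (hc j (Finset.mem_range.1 hj)).minNor.2.1
        omega
    rw [Finset.card_range, smul_eq_mul, mul_one] at h4
    rw [hl] at h3
    omega
  have h3 : {i | ⁅Ω, res (K i)⁆ ≠ ⊥} ⊆ ⋃ j : Fin l, act K (N j.1) (N (j.1 + 1)) := fun i hi => by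
    by_contra h4
    refine hi (le_bot_iff.1 ?_)
    rw [← hl, ← h0]
    exact chain_comm (res_perf _) N l fun j hj =>
      by_contra fun h5 => h4 (Set.mem_iUnion.2 ⟨⟨j, hj⟩, h5⟩)
  refine (Set.ncard_le_ncard h3).trans ((Set.ncard_iUnion_le_of_fintype _).trans ?_)
  refine (Finset.sum_le_card_nsmul _ _ b fun (j : Fin l) _ => h1 j.1 j.2).trans ?_
  rw [Finset.card_univ, Fintype.card_fin, smul_eq_mul]
  exact Nat.mul_le_mul_right _ h2

end Pool.Agent.Lib.MP_634dc6_al
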