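import Pool.Agent.Lib.MP_634dc6_al.O.OCrit
import Pool.Agent.Lib.MP_634dc6_al.O.OLin

/-!
The number of components is bounded by the number of classes of elements of small order.
-/

namespace Pool.Agent.Lib.MP_634dc6_al

variable {G : Type} [Group G] [Finite G] {ι : Type} [Finite ι] {M q a : ℕ}
  {D R T E : Subgroup G} {K : ι → Subgroup G}

/-- The components that contain a noncentral `q`-element. -/
def qs (q : ℕ) (D : Subgroup G) (K : ι → Subgroup G) : Set ι :=
  {i | ∃ x ∈ res (K i), PE q x ∧ i ∈ supp D K x}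

omit [Finite ι] in
theorem GS.quot (h : GS M D R K) [T.Normal] (hT : T ≤ D) :
    GS M (D.map (QuotientGroup.mk' T)) (R.map (QuotientGroup.mk' T))
      fun i => (K i).map (QuotientGroup.mk' T) := by
  have hs := QuotientGroup.mk'_surjective T
  refine ⟨h.nD.map _ hs, h.nR.map _ hs, Subgroup.map_mono h.DR, fun i => Subgroup.map_mono (h.DK i),
    fun i => ?_, fun i hi => h.ne i ?_, fun i => (jn_relIndex_map _ _ _).trans (h.idx i),
    fun i j hij => ?_, fun i => ?_, fun g => ?_⟩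
  · rw [← Subgroup.map_commutator, ← Subgroup.map_sup]
    exact Subgroup.map_mono (h.perf i)
  · exact (perf_le_sup.2 hi).trans (sup_le le_rfl hT)
  · rw [← Subgroup.map_commutator]
    exact Subgroup.map_mono (h.comm i j hij)
  · rw [← Subgroup.map_commutator]
    exact Subgroup.map_mono (h.cen i)
  · obtain ⟨g, rfl⟩ := hs g
    obtain ⟨π, hπ⟩ := h.perm g
    exact ⟨π, fun i => by rw [← cj_map, hπ]⟩

omit [Finite G] [Finite ι] in
theorem qs_quot [T.Normal] (hT : T ≤ D) : qs q D K ⊆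
    qs q (D.map (QuotientGroup.mk' T)) fun i => (K i).map (QuotientGroup.mk' T) := by
  rintro i ⟨x, hx, h1, k, hk, h2⟩
  refine ⟨_, le_res (Subgroup.map_mono (res_le _)) (map_perf _ (res_perf _)) ⟨x, hx, rfl⟩,
    h1.map _, _, ⟨k, hk, rfl⟩, fun h3 => h2 ?_⟩
  rw [← map_inv, ← map_inv, ← map_mul, ← map_mul, ← map_mul, ← Subgroup.mem_comap,
    Subgroup.comap_map_eq_self ((QuotientGroup.ker_mk' T).le.trans hT)] at h3
  exact h3

omit [Finite ι] in
theorem GS.exists_qs (h : GS M D R K) (i : ι) : ∃ q : ℕ, q.Prime ∧ q ≤ M ∧ i ∈ qs q D K := by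
  have := h.nD
  by_contra hc
  have h1 : D ≤ cm (K i) D := le_cm.2 (Subgroup.commutator_le_left _ _)
  have h2 : res (K i) ≤ cm (K i) D := fun g hg => by
    rw [← pow_one g]
    refine parts fun s hs j hj => ?_
    rw [pow_one]
    have h3 := Subgroup.pow_mem _ hg j
    rcases le_or_gt s M with h4 | h4
    · exact mem_cm.2 fun b hb => by_contra fun h5 => hc ⟨s, hs, h4, _, h3, hj, b, hb, h5⟩
    · exact h1 (hj.mem_of_pow (coprime_factorial hs h4) (pow_factorial_mem (h.idx i) (res_le _ h3)))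
  exact h.ne i ((h.perf i).trans (sup_le (le_cm.1 ((h.res_cov i).trans (sup_le h2 h1))) le_rfl))

omit [Finite G] [Finite ι] in
theorem GS.supp_mul (h : GS M D R K) {ρ k : G} {i : ι} (hk : k ∈ K i) (hi : i ∈ supp D K k)
    (hρ : i ∉ supp D K ρ) : supp D K (ρ * k) = insert i (supp D K ρ) := by
  have := h.nD
  ext j
  rw [Set.mem_insert_iff]
  rcases eq_or_ne j i with rfl | hj
  · rw [wt_supp, not_not] at hρ
    refine iff_of_true (wt_supp.2 fun h2 => wt_supp.1 hi fun x hx => ?_) (Or.inl rfl)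
    have h3 := (hρ x hx).inv_left.mul_left (h2 x hx)
    rwa [map_mul, inv_mul_cancel_left] at h3
  · have h1 : ∀ x ∈ K j, Commute (QuotientGroup.mk' D k) (QuotientGroup.mk' D x) :=
      fun x hx => wt_mem.1 (comm_le_iff.1 (h.comm i j hj.symm) k hk x hx)
    rw [or_iff_right hj, wt_supp, wt_supp, map_mul]
    refine not_congr (forall₂_congr fun x hx => ⟨fun h2 => ?_, fun h2 => h2.mul_left (h1 x hx)⟩)
    have h3 := h2.mul_left (h1 x hx).inv_left
    rwa [mul_inv_cancel_right] at h3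

/-- The transfer to the centre. -/
theorem perf_pe {L Z : Subgroup G} (hq : q.Prime) (hL : ⁅L, L⁆ = L) (hZ : ⁅Z ⊓ L, L⁆ = ⊥)
    (hM : Z.relIndex L ≤ M) (ha : Nat.log q M ≤ a) {x : G} (hx : x ∈ L) (hp : PE q x) :
    x ^ q ^ a = 1 := by
  have h3 : (⊤ : Subgroup L) ≤ (MonoidHom.transferCenterPow L).ker := by
    rw [← perf_top hL, _root_.commutator, Subgroup.commutator_le]
    intro a _ b _
    rw [MonoidHom.mem_ker, map_commutatorElement, commutatorElement_eq_one_iff_mul_comm]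
    exact Subtype.ext (Subgroup.mem_center_iff.1 (MonoidHom.transferCenterPow L b).2 _)
  have h4 : (⟨x, hx⟩ : L) ^ (Subgroup.center L).index = 1 := by
    rw [← MonoidHom.transferCenterPow_apply, MonoidHom.mem_ker.1 (h3 (Subgroup.mem_top _))]
    rfl
  have h5 : x ^ (Subgroup.center L).index = 1 := by simpa using congrArg Subtype.val h4
  obtain ⟨k, hk⟩ := hp
  obtain ⟨b, -, hb⟩ := (Nat.dvd_prime_pow hq).1 (orderOf_dvd_of_pow_eq_one hk)
  have h6 : q ^ b ≤ M := (Nat.le_of_dvd (Nat.pos_of_ne_zero Subgroup.FiniteIndex.index_ne_zero)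
    (hb ▸ orderOf_dvd_of_pow_eq_one h5)).trans ((perf_center hZ).trans hM)
  rw [← orderOf_dvd_iff_pow_eq_one, hb]
  exact pow_dvd_pow q ((Nat.le_log_of_pow_le hq.one_lt h6).trans ha)

/-- The components that centralise the Fitting subgroup. -/
theorem GS.inact (h : GS M D R K) (hD : Group.IsSolvable D) (hK : ∀ i, K i ≤ E) (hq : q.Prime)
    (ha : Nat.log q M ≤ a) :
    ({i | ∀ r : ℕ, r.Prime → ⁅opr r D, res (K i)⁆ = ⊥} ∩ qs q D K).ncard ≤
      om {x | x ∈ E ∧ x ^ q ^ a = 1} := by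
  classical
  have := h.nD
  have := h.nR
  set I : Set ι := {i | ∀ r : ℕ, r.Prime → ⁅opr r D, res (K i)⁆ = ⊥} with hI
  have hinv : InvS (fun i => res (K i)) I := by
    intro g i hi
    obtain ⟨π, hπ⟩ := h.res_perm g
    refine ⟨π i, fun q hq => ?_, hπ i⟩
    rw [← hπ i, ← cj_normal g (opr q D), ← cj_commutator, cj_eq_bot]
    exact hi q hq
  have := jn_normal hinv
  have h1 : ⁅R, jn (fun i => res (K i)) I⁆ = ⊥ :=
    comm_bot_of_opr hD (jn_perf (fun i => res_perf _) I) (h.cen_jn I) fun q hq =>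
      le_bot_iff.1 (comm_jn_le fun i hi => (hi q hq).le)
  have h2 : ∀ i ∈ I, ⁅D, res (K i)⁆ ≤ ⊥ := fun i hi =>
    (Subgroup.commutator_mono h.DR (le_jn (Λ := fun i => res (K i)) hi)).trans h1.le
  have h3 : ∀ J : Finset ι, (J : Set ι) ⊆ I ∩ qs q D K →
      ∃ x ∈ jn (fun i => res (K i)) (J : Set ι), x ^ q ^ a = 1 ∧ supp D K x = J := by
    intro J
    induction J using Finset.induction_on with
    | empty =>
      exact fun _ => ⟨1, one_mem _, one_pow _, by
        rw [h.supp_eq_empty R.one_mem, Finset.coe_empty]⟩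
    | insert i J hi ih =>
      intro hJ
      rw [Finset.coe_insert] at hJ ⊢
      obtain ⟨x, hx, h4, e⟩ := ih ((Set.subset_insert _ _).trans hJ)
      obtain ⟨h5, k, hk, h6, h7⟩ := hJ (Set.mem_insert _ _)
      have h8 : ⁅res (K i), jn (fun i => res (K i)) (J : Set ι)⁆ ≤ ⊥ := comm_jn_le fun j hj =>
        perf_comm (res_perf _) ((Subgroup.commutator_mono ((Subgroup.commutator_mono (res_le _)
          (res_le _)).trans (h.comm i j fun e => hi (e ▸ hj))) le_rfl).trans
            (h2 j (hJ (Set.mem_insert_of_mem _ hj)).1))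
      refine ⟨x * k, mul_mem (jn_mono (Set.subset_insert _ _) (fun _ _ => le_rfl) hx)
        (le_jn (Λ := fun i => res (K i)) (Set.mem_insert _ _) hk), ?_, ?_⟩
      · rw [(comm_eq_bot_iff.1 (le_bot_iff.1 h8) k hk x hx).symm.mul_pow, h4, one_mul]
        exact perf_pe (Z := D) hq (res_perf _)
          (le_bot_iff.1 ((Subgroup.commutator_mono inf_le_left le_rfl).trans (h2 i h5)))
          ((Subgroup.relIndex_le_of_le_right (res_le _) Subgroup.index_ne_zero_of_finite).trans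
            (h.idx i)) ha hk h6
      · rw [h.supp_mul (res_le _ hk) h7 (e ▸ hi), e]
  have h4 := ncard_le_om (fun x => (supp D K x).ncard) {x | x ∈ E ∧ x ^ q ^ a = 1}
    fun a _ b _ hab => by
      obtain ⟨c, rfl⟩ := isConj_iff.1 hab
      exact (h.ncard_supp (conj_mem_cls D c a)).symm
  have h6 : (Set.Iio (I ∩ qs q D K).ncard).ncard = (I ∩ qs q D K).ncard := by simp
  rw [← h6]
  refine le_trans (Set.ncard_le_ncard (fun w hw => ?_) ((Set.toFinite _).image _)) h4
  obtain ⟨J, hJ, e⟩ := Finset.exists_subset_card_eq (s := (Set.toFinite (I ∩ qs q D K)).toFinset)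
    (n := w) (by rw [← Set.ncard_eq_toFinset_card]; exact le_of_lt hw)
  obtain ⟨x, hx, h7, h8⟩ := h3 J fun i hi => (Set.Finite.mem_toFinset _).1 (hJ hi)
  refine ⟨x, ⟨jn_le (fun i _ => (res_le _).trans (hK i)) hx, h7⟩, ?_⟩
  show (supp D K x).ncard = w
  rw [h8, Set.ncard_coe_finset, e]

/-- Elements of `q`-power order lift through a normal `r`-subgroup with the same order. -/
theorem om_quot {r : ℕ} [T.Normal] (hq : q.Prime) (hr : r.Prime) (hne : r ≠ q)
    (hT : IsPGroup r T) : om {x | x ∈ E.map (QuotientGroup.mk' T) ∧ x ^ q ^ a = 1} ≤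
      om {x | x ∈ E ∧ x ^ q ^ a = 1} := by
  refine (om_mono ?_).trans (om_map_le (QuotientGroup.mk' T) _)
  rintro _ ⟨⟨x, hx, rfl⟩, h1⟩
  obtain ⟨y, z, hd⟩ := dec_exists hq x
  obtain ⟨-, j, hj⟩ := hd.mem_pow
  have h2 : Dec q (QuotientGroup.mk' T x) 1 (QuotientGroup.mk' T x) :=
    ⟨(one_mul _).symm, Commute.one_left _, by simp [QE], a, h1⟩
  have h3 := ((hd.map (QuotientGroup.mk' T)).unique h2).2
  refine ⟨z, ⟨hj ▸ E.pow_mem hx j, ?_⟩, h3⟩
  refine eq_one_of_PE_QE (hd.2.2.2.pow _) (QE.of_PE_ne hq hr hne (PE.of_mem hT ?_))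
  rw [← QuotientGroup.eq_one_iff, ← QuotientGroup.mk'_apply, map_pow, h3, h1]

theorem amb_count (M κ : ℕ) : ∃ b : ℕ, ∀ (n : ℕ) (G : Type) [Group G] [Finite G],
    Nat.card G = n → ∀ (ι : Type) [Finite ι] (q a : ℕ) (D R E : Subgroup G) (K : ι → Subgroup G),
    GS M D R K → Group.IsSolvable D → E.Normal → Sm M E → D ≤ E → (∀ i, K i ≤ E) → q.Prime →
    2 ≤ a → Nat.log q M ≤ a → om {x | x ∈ E ∧ x ^ q ^ a = 1} ≤ κ → (qs q D K).ncard ≤ b := by
  obtain ⟨b, hb⟩ := act_few M κ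
  refine ⟨b + κ, fun n => ?_⟩
  induction n using Nat.strong_induction_on with
  | _ n ih =>
  intro G _ _ hn ι _ q a D R E K h hD hE hS hDE hK hq h2 ha hκ
  by_cases hc : ∃ r : ℕ, r.Prime ∧ r ≠ q ∧ opr r D ≠ ⊥
  · obtain ⟨r, hr, hne, h0⟩ := hc
    have hs := QuotientGroup.mk'_surjective (opr r D)
    refine (Set.ncard_le_ncard (qs_quot (opr_le r D))).trans (ih _ ?_ (G ⧸ opr r D) rfl ι q a _ _
      (E.map (QuotientGroup.mk' _)) _ (h.quot (opr_le r D))
      (Group.isSolvable_of_surjective (MonoidHom.subgroupMap_surjective _ D)) (hE.map _ hs)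
      (hS.of_surjective _ (MonoidHom.subgroupMap_surjective _ E)) (Subgroup.map_mono hDE)
      (fun i => Subgroup.map_mono (hK i)) hq h2 ha
      ((om_quot hq hr hne (opr_pgroup r D)).trans hκ))
    rw [← hn, Subgroup.card_eq_card_quotient_mul_card_subgroup (opr r D)]
    exact lt_mul_of_one_lt_right Nat.card_pos ((Subgroup.one_lt_card_iff_ne_bot _).2 h0)
  · obtain ⟨Ω, hΩ, h3, h4, h5⟩ := exists_crit (opr q D) hq (opr_pgroup q D)
    have h9 : (Ω : Set G) ⊆ {x | x ∈ E ∧ x ^ q ^ a = 1} := fun x hx =>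
      ⟨hDE (opr_le q D (h3 hx)), by
        obtain ⟨c, rfl⟩ := Nat.exists_eq_add_of_le h2
        rw [pow_add, pow_mul, h4 x hx, one_pow]⟩
    have h6 := hb G ι M q D R E Ω K h hD hE hS hDE hK hq hΩ ((opr_pgroup q D).to_le h3)
      ((om_mono h9).trans hκ)
    have h7 := (h.inact hD hK hq ha).trans hκ
    refine (Set.ncard_le_ncard (fun i hi => ?_)).trans
      ((Set.ncard_union_le _ _).trans (Nat.add_le_add h6 h7))
    by_cases h8 : ⁅Ω, res (K i)⁆ = ⊥
    · refine Or.inr ⟨fun r hr => ?_, hi⟩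
      rcases eq_or_ne r q with rfl | hne
      · exact h5 _ (res_perf _) h8
      · rw [show opr r D = ⊥ from by_contra fun h9 => hc ⟨r, hr, hne, h9⟩,
          Subgroup.commutator_bot_left]
    · exact Or.inl h8

end Pool.Agent.Lib.MP_634dc6_al
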