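import Pool.Agent.Lib.MP_634dc6_al.HP
import Pool.Agent.Lib.MP_634dc6_al.Opr
import Pool.Agent.Lib.MP_634dc6_al.LinB

/-!
A critical subgroup in the sense of Thompson, and its subgroup of small exponent.
-/

namespace Pool.Agent.Lib.MP_634dc6_al

variable {G : Type} [Group G] {q : ℕ} {Q A C P : Subgroup G}

theorem crit_pow {x y c : G} (h : y * x = c * x * y) (hx : Commute c x) (hy : Commute c y)
    (n : ℕ) : (x * y) ^ n = c ^ n.choose 2 * x ^ n * y ^ n := by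
  have h1 : ∀ k : ℕ, y ^ k * x = c ^ k * x * y ^ k := fun k => by
    induction k with
    | zero => simp
    | succ k ih =>
      calc y ^ (k + 1) * x = y * (y ^ k * x) := by rw [pow_succ', mul_assoc]
        _ = c ^ k * (y * x) * y ^ k := by
          rw [ih, ← mul_assoc, ← mul_assoc, ← (hy.pow_left k).eq, mul_assoc (c ^ k)]
        _ = _ := by
          rw [h, pow_succ c, pow_succ' y]
          simp only [mul_assoc]
  induction n with
  | zero => simp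
  | succ n ih =>
    calc (x * y) ^ (n + 1) = c ^ n.choose 2 * x ^ n * (y ^ n * x) * y := by
          rw [pow_succ, ih]
          simp only [mul_assoc]
      _ = c ^ n.choose 2 * (x ^ n * c ^ n) * x * y ^ n * y := by
          rw [h1]
          simp only [mul_assoc]
      _ = _ := by
          rw [← (hx.pow_pow n n).eq, Nat.choose_succ_succ' n 1, Nat.choose_one_right, add_comm n,
            pow_add, pow_succ x, pow_succ y]
          simp only [mul_assoc]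

/-- The critical subgroup over `A`. -/
def crt (q : ℕ) (Q A : Subgroup G) [A.Normal] : Subgroup G where
  carrier := {x | x ∈ Q ⊓ cz A ⊓ cm Q A ∧ x ^ q ∈ A}
  one_mem' := ⟨Subgroup.one_mem _, by rw [one_pow]; exact A.one_mem⟩
  inv_mem' := fun h => ⟨Subgroup.inv_mem _ h.1, by rw [inv_pow]; exact A.inv_mem h.2⟩
  mul_mem' := fun {a b} ha hb => ⟨Subgroup.mul_mem _ ha.1 hb.1, by
    have h1 := linb_commute.2 (mem_cm.1 ha.1.2 b hb.1.1.1)
    rw [← QuotientGroup.eq_one_iff, ← QuotientGroup.mk'_apply, map_pow, map_mul, h1.mul_pow,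
      ← map_pow, ← map_pow, ← map_mul, QuotientGroup.mk'_apply, QuotientGroup.eq_one_iff]
    exact A.mul_mem ha.2 hb.2⟩

theorem crt_normal [Q.Normal] [hA : A.Normal] : (crt q Q A).Normal :=
  ⟨fun x hx g => ⟨Subgroup.Normal.conj_mem inferInstance x hx.1 g, by
    rw [conj_pow]
    exact hA.conj_mem _ hx.2 g⟩⟩

theorem crt_mul [A.Normal] (hq : q.Prime) {x y : G} (hx : x ∈ crt q Q A) (hy : y ∈ crt q Q A) :
    (x * y) ^ q ^ 2 = x ^ q ^ 2 * y ^ q ^ 2 := by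
  have hc : y * x * y⁻¹ * x⁻¹ ∈ A := mem_cm.1 hy.1.2 x hx.1.1.1
  have h1 : Commute (y * x * y⁻¹ * x⁻¹) x := Subgroup.mem_centralizer_iff.1 hx.1.1.2 _ hc
  have h2 : Commute (y * x * y⁻¹ * x⁻¹) y := Subgroup.mem_centralizer_iff.1 hy.1.1.2 _ hc
  have h3 : Commute (x ^ q) y := Subgroup.mem_centralizer_iff.1 hy.1.1.2 _ hx.2
  have h4 : (y * x * y⁻¹ * x⁻¹) ^ q = 1 := by
    have h5 := h1.mul_pow q
    rw [inv_mul_cancel_right, conj_pow, ← h3.eq, mul_inv_cancel_right] at h5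
    exact mul_eq_right.1 h5.symm
  obtain ⟨k, hk⟩ := hp_choose (a := 1) (t := 1) (j := 2) hq one_le_two
    (by rw [pow_one]; exact hq.two_le)
  rw [crit_pow (c := y * x * y⁻¹ * x⁻¹) (by group) h1 h2, hk, pow_one, pow_mul, h4, one_pow,
    one_mul]

theorem crt_mul_pow [A.Normal] (hq : q.Prime) (j : ℕ) : ∀ {x y : G}, x ∈ crt q Q A →
    y ∈ crt q Q A → (x * y) ^ (q ^ 2) ^ j = x ^ (q ^ 2) ^ j * y ^ (q ^ 2) ^ j := by
  induction j with
  | zero => simp
  | succ j ih =>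
    intro x y hx hy
    rw [pow_succ' (q ^ 2), pow_mul, pow_mul, pow_mul, crt_mul hq hx hy,
      ih (Subgroup.pow_mem _ hx _) (Subgroup.pow_mem _ hy _)]

/-- The kernels of the power maps. -/
def crk (hq : q.Prime) (Q A : Subgroup G) [A.Normal] (j : ℕ) : Subgroup G where
  carrier := {x | x ∈ crt q Q A ∧ x ^ (q ^ 2) ^ j = 1}
  one_mem' := ⟨Subgroup.one_mem _, one_pow _⟩
  inv_mem' := fun h => ⟨Subgroup.inv_mem _ h.1, by rw [inv_pow, h.2, inv_one]⟩
  mul_mem' := fun {a b} ha hb => ⟨Subgroup.mul_mem _ ha.1 hb.1, by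
    rw [crt_mul_pow hq j ha.1 hb.1, ha.2, hb.2, one_mul]⟩

theorem crk_normal [Q.Normal] [A.Normal] (hq : q.Prime) (j : ℕ) : (crk hq Q A j).Normal :=
  ⟨fun x hx g => ⟨crt_normal.conj_mem x hx.1 g, by rw [conj_pow, hx.2, mul_one, mul_inv_cancel]⟩⟩

/-- The critical subgroup contains its centraliser in `Q`. -/
theorem crt_self [Finite G] [Q.Normal] [A.Normal] (hq : q.Prime) (hQ : IsPGroup q Q) (hA : A ≤ Q)
    (hc : ⁅A, A⁆ = ⊥) (hm : ∀ B : Subgroup G, B.Normal → B ≤ Q → ⁅B, B⁆ = ⊥ → A ≤ B → B ≤ A) :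
    Q ⊓ cz (crt q Q A) ≤ crt q Q A := by
  have := Fact.mk hq
  have := crt_normal (q := q) (Q := Q) (A := A)
  have h1 : A ≤ crt q Q A := fun a ha => ⟨⟨⟨hA ha,
    Subgroup.commutator_eq_bot_iff_le_centralizer.1 hc ha⟩,
    le_cm.2 (Subgroup.commutator_le_left A Q) ha⟩, A.pow_mem ha q⟩
  have h2 : crt q Q A ⊓ cz (crt q Q A) ≤ A := hm _ inferInstance (fun x hx => hx.1.1.1.1)
    (le_bot_iff.1 ((Subgroup.commutator_mono inf_le_right inf_le_left).trans
      (Subgroup.commutator_eq_bot_iff_le_centralizer.2 le_rfl).le))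
    (le_inf h1 fun a ha => Subgroup.mem_centralizer_iff.2 fun x hx =>
      (Subgroup.mem_centralizer_iff.1 hx.1.1.2 a ha).symm)
  refine le_trans ?_ h1
  rw [← map_mk_eq_bot]
  by_contra h0
  have hs := QuotientGroup.mk'_surjective A
  have : ((Q ⊓ cz (crt q Q A)).map (QuotientGroup.mk' A)).Normal :=
    Subgroup.Normal.map inferInstance _ hs
  have : (Q.map (QuotientGroup.mk' A)).Normal := Subgroup.Normal.map inferInstance _ hs
  obtain ⟨N, hle, hN⟩ := exists_minNor h0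
  have hpN : IsPGroup q N := (hQ.map _).to_le (hle.trans (Subgroup.map_mono inf_le_left))
  have h3 := comm_eq_bot_iff.1 (hN.comm_pgroup hq hpN (hQ.map (QuotientGroup.mk' A)))
  have : Nontrivial N := (Subgroup.nontrivial_iff_ne_bot N).2 hN.2.1
  obtain ⟨k, hk0, hk⟩ := hpN.nontrivial_iff_card.1 this
  obtain ⟨⟨v, hv⟩, ho⟩ := exists_prime_orderOf_dvd_card' (G := N) q
    (hk ▸ dvd_pow_self q hk0.ne')
  obtain ⟨x, hx, rfl⟩ := hle hv
  rw [Subgroup.orderOf_mk] at ho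
  have h4 : x ∈ A := h2 ⟨⟨⟨⟨hx.1, Subgroup.centralizer_le h1 hx.2⟩,
    mem_cm.2 fun b hb => linb_commute.1 (h3 _ hv _ ⟨b, hb, rfl⟩)⟩, by
      rw [← QuotientGroup.eq_one_iff, ← QuotientGroup.mk'_apply, map_pow, ← ho,
        pow_orderOf_eq_one]⟩, hx.2⟩
  rw [show QuotientGroup.mk' A x = 1 from (QuotientGroup.eq_one_iff x).2 h4, orderOf_one] at ho
  exact hq.one_lt.ne ho

/-- A perfect group that centralises a suitable normal subgroup of exponent dividing `q ^ 2`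
centralises `Q`. -/
theorem exists_crit [Finite G] (Q : Subgroup G) [Q.Normal] (hq : q.Prime) (hQ : IsPGroup q Q) :
    ∃ Ω : Subgroup G, Ω.Normal ∧ Ω ≤ Q ∧ (∀ x ∈ Ω, x ^ q ^ 2 = 1) ∧
      ∀ P : Subgroup G, ⁅P, P⁆ = P → ⁅Ω, P⁆ = ⊥ → ⁅Q, P⁆ = ⊥ := by
  have := Fact.mk hq
  obtain ⟨A, ⟨hA, hAQ, hc⟩, hm⟩ := (Set.toFinite
    {B : Subgroup G | B.Normal ∧ B ≤ Q ∧ ⁅B, B⁆ = ⊥}).exists_maximal
      ⟨⊥, inferInstance, bot_le, Subgroup.commutator_bot_left _⟩
  have h1 := crt_self hq hQ hAQ hc fun B h1 h2 h3 h4 => hm ⟨h1, h2, h3⟩ h4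
  have hC := crt_normal (q := q) (Q := Q) (A := A)
  have hK := crk_normal (Q := Q) (A := A) hq
  refine ⟨crk hq Q A 1, hK 1, fun x hx => hx.1.1.1.1, fun x hx => by simpa using hx.2,
    fun P hP h0 => ?_⟩
  obtain ⟨k, hk⟩ := hQ.exists_card_eq
  have h2 : ⁅crk hq Q A k, P⁆ ≤ crk hq Q A 0 := chain_comm hP (crk hq Q A) k fun j _ =>
    comm_le_iff.2 fun x hx g hg => by
      have h3 : g * x⁻¹ * g⁻¹ ∈ crt q Q A := hC.conj_mem _ (Subgroup.inv_mem _ hx.1) g
      have h4 : x ^ (q ^ 2) ^ j ∈ crk hq Q A 1 := ⟨Subgroup.pow_mem _ hx.1 _, by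
        rw [pow_one, ← pow_mul, ← pow_succ]
        exact hx.2⟩
      rw [show x * g * x⁻¹ * g⁻¹ = x * (g * x⁻¹ * g⁻¹) by group]
      refine ⟨Subgroup.mul_mem _ hx.1 h3, ?_⟩
      rw [crt_mul_pow hq j hx.1 h3, conj_pow, inv_pow, ← mul_assoc, ← mul_assoc,
        (comm_eq_bot_iff.1 h0 _ h4 g hg).eq]
      group
  have h3 : ⁅crt q Q A, P⁆ ≤ ⊥ := by
    refine (Subgroup.commutator_mono (H₂ := P) (K₁ := crk hq Q A k) (fun x hx => ⟨hx, ?_⟩)
      le_rfl).trans (h2.trans fun x hx => Subgroup.mem_bot.2 (by simpa using hx.2))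
    have h4 : x ^ q ^ k = 1 := by
      rw [← hk]
      exact congrArg Subtype.val (pow_card_eq_one' (x := (⟨x, hx.1.1.1⟩ : Q)))
    rw [← pow_mul, mul_comm, mul_two, pow_add, pow_mul, h4, one_pow]
  have h4 : ⁅⁅Q, P⁆, crt q Q A⁆ ≤ ⊥ := by
    refine three_mod ?_ ((Subgroup.commutator_mono (Subgroup.commutator_le_left _ _) le_rfl).trans h3)
    rw [Subgroup.commutator_comm P, le_bot_iff.1 h3, Subgroup.commutator_bot_left]
  have h5 : ⁅Q, P⁆ ≤ crt q Q A := (le_inf (Subgroup.commutator_le_left _ _)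
    (Subgroup.commutator_eq_bot_iff_le_centralizer.1 (le_bot_iff.1 h4))).trans h1
  exact le_bot_iff.1 (perf_comm hP ((Subgroup.commutator_mono h5 le_rfl).trans h3))

end Pool.Agent.Lib.MP_634dc6_al
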