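import Pool.Agent.Lib.MP_634dc6_al.O.OAmb

/-!
The bound for the index of the radical.
-/

namespace Pool.Agent.Lib.MP_634dc6_al

variable {G : Type} [Group G] [Finite G] {ι : Type} [Finite ι] {M q a m : ℕ}
  {D R : Subgroup G} {K : ι → Subgroup G}

theorem Sm.ext {N : Subgroup G} [hN : N.Normal] (h : Sm M N) (hi : N.index ≤ M) : Sm M G := by
  intro A T _ φ hφ hs hn
  rcases hs.eq_bot_or_eq_top_of_normal _ ((hN.subgroupOf A).map φ hφ) with hb | hb
  · have h3 := jn_relIndex_map φ (N.subgroupOf A) ⊤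
    rw [hb, Subgroup.map_top_of_surjective φ hφ, Subgroup.relIndex_top_right, Subgroup.index_bot,
      Subgroup.relIndex_top_right] at h3
    exact h3.trans ((Subgroup.relIndex_le_of_le_right le_top Subgroup.index_ne_zero_of_finite).trans
      ((Subgroup.relIndex_top_right _).le.trans hi))
  · refine h (A.comap N.subtype) T (φ.comp (N.subtype.subgroupComap A)) (fun t => ?_) hs hn
    obtain ⟨x, hx, rfl⟩ : t ∈ (N.subgroupOf A).map φ := hb ▸ Subgroup.mem_top t
    exact ⟨⟨⟨x, hx⟩, x.2⟩, rfl⟩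

omit [Finite G] in
theorem sm_of_sol (h : Group.IsSolvable G) : Sm M G := by
  rintro A T _ φ hφ hs ⟨x, y, hxy⟩
  exact absurd (IsSimpleGroup.comm_iff_isSolvable.2 (Group.isSolvable_of_surjective hφ) x y) hxy

omit [Finite ι] in
theorem GS.sm (h : GS M D R K) (hD : Group.IsSolvable D) (J : Finset ι) :
    Sm M ↥(jn K (J : Set ι) ⊔ D) := by
  classical
  have := h.nD
  induction J using Finset.induction_on with
  | empty =>
    rw [Finset.coe_empty, autl_jn_empty, bot_sup_eq]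
    exact sm_of_sol hD
  | insert i J hi ih =>
    rw [Finset.coe_insert, autl_jn_insert, sup_assoc]
    have h1 : ⁅K i, jn K (J : Set ι) ⊔ D⁆ ≤ D :=
      topa_comm_sup (comm_jn_le fun j hj => h.comm i j fun e => hi (e ▸ hj))
    generalize hX : jn K (J : Set ι) ⊔ D = X at h1 ih
    have h2 : D ≤ X := hX ▸ le_sup_right
    have : (X.subgroupOf (K i ⊔ X)).Normal := Subgroup.normal_subgroupOf_of_le_normalizer
      (sup_le (fun g hg => mem_nz.2 (cj_eq_of_comm fun k hk => h2 (comm_le_iff.1 h1 g hg k hk)))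
        Subgroup.le_normalizer)
    refine Sm.ext (N := X.subgroupOf (K i ⊔ X)) (ih.of_injective
      (Subgroup.subgroupOfEquivOfLe le_sup_right).toMonoidHom (MulEquiv.injective _)) ?_
    rw [← Subgroup.relIndex_top_right, ← Subgroup.subgroupOf_self (K i ⊔ X),
      Subgroup.subgroupOf_sup le_sup_left le_sup_right, Subgroup.relIndex_sup_right,
      Subgroup.relIndex_subgroupOf le_sup_left]
    exact (Subgroup.relIndex_le_of_le_left h2 Subgroup.index_ne_zero_of_finite).trans (h.idx i)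

/-- `amb_count` for all primes. -/
theorem amb_card (M κ : ℕ) : ∃ b : ℕ, ∀ (G : Type) [Group G] [Finite G] (ι : Type) [Finite ι]
    (D R E : Subgroup G) (K : ι → Subgroup G), GS M D R K → Group.IsSolvable D → D ≤ E →
    (∀ i, K i ≤ E) → (∀ q : ℕ, q.Prime → q ≤ M →
      om {x | x ∈ E ∧ x ^ q ^ max 2 (Nat.log q M) = 1} ≤ κ) → Nat.card ι ≤ b := by
  classical
  obtain ⟨b, hb⟩ := amb_count M κ
  refine ⟨(M + 1) * b, fun G _ _ ι _ D R E K h hD hDE hK hκ => ?_⟩
  have := Fintype.ofFinite ι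
  have := h.nD
  have := jn_normal (invS_univ h.perm)
  have h1 := h.sm hD Finset.univ
  rw [Finset.coe_univ] at h1
  have h2 : ∀ q : Fin (M + 1), {i | q.1.Prime ∧ i ∈ qs q.1 D K}.ncard ≤ b := fun q => by
    by_cases hq : q.1.Prime
    · refine (Set.ncard_le_ncard fun i hi => hi.2).trans (hb _ G rfl ι q _ D R _ K h hD
        inferInstance h1 le_sup_right (fun i => (le_jn (Set.mem_univ i)).trans le_sup_left) hq
        (le_max_left _ _) (le_max_right _ _) (le_trans (om_mono ?_) (hκ q hq (Nat.le_of_lt_succ q.2))))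
      exact fun x hx => ⟨sup_le (jn_le fun i _ => hK i) hDE hx.1, hx.2⟩
    · simp [hq]
  have h3 : (Set.univ : Set ι) ⊆ ⋃ q : Fin (M + 1), {i | q.1.Prime ∧ i ∈ qs q.1 D K} :=
    fun i _ => by
      obtain ⟨q, h4, h5, h6⟩ := h.exists_qs i
      exact Set.mem_iUnion.2 ⟨⟨q, Nat.lt_succ_of_le h5⟩, h4, h6⟩
  rw [← Set.ncard_univ]
  refine (Set.ncard_le_ncard h3).trans ((Set.ncard_iUnion_le_of_fintype _).trans ?_)
  refine (Finset.sum_le_card_nsmul _ _ b fun q _ => h2 q).trans ?_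
  rw [Finset.card_univ, Fintype.card_fin, smul_eq_mul]

/-- Classes in the holomorph and orbits of the automorphism group. -/
theorem om_hol_le (hq : q.Prime) (ha : q ^ a ≤ M ^ 2) (hm : ∀ n ≤ M ^ 2, IsPrimePow n →
      (MulAction.orbit (MulAut G) '' {g : G | orderOf g = n}).ncard ≤ m) :
    om {x | x ∈ (⊤ : Subgroup G).map (SemidirectProduct.inl : G →* Hol G) ∧ x ^ q ^ a = 1} ≤
      (a + 1) * (m + 1) := by
  have inj : Function.Injective (SemidirectProduct.inl : G →* Hol G) :=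
    SemidirectProduct.inl_injective
  have h1 : ∀ b : Fin (a + 1), (ConjClasses.mk '' ((SemidirectProduct.inl : G →* Hol G) ''
      {g : G | orderOf g = q ^ b.1})).ncard ≤ m + 1 := fun b => by
    rw [Set.image_image]
    refine (om_aux _ _ (MulAction.orbit (MulAut G)) fun x _ y _ hxy =>
      ConjClasses.mk_eq_mk_iff_isConj.2 ((hol_isConj x y).2
        (MulAction.orbitRel_apply.2 (MulAction.orbit_eq_iff.1 hxy)))).trans ?_
    rcases Nat.eq_zero_or_pos b.1 with h0 | h0
    · refine (Set.ncard_image_le (Set.toFinite _)).trans ?_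
      rw [h0, pow_zero, show {g : G | orderOf g = 1} = {1} from
        Set.ext fun g => orderOf_eq_one_iff, Set.ncard_singleton]
      exact Nat.le_add_left _ _
    · exact (hm _ ((Nat.pow_le_pow_right hq.pos (Nat.le_of_lt_succ b.2)).trans ha)
        (hq.isPrimePow.pow h0.ne')).trans m.le_succ
  refine (Set.ncard_le_ncard (t := ⋃ b : Fin (a + 1), ConjClasses.mk ''
    ((SemidirectProduct.inl : G →* Hol G) '' {g : G | orderOf g = q ^ b.1})) ?_).trans
      ((Set.ncard_iUnion_le_of_fintype _).trans ?_)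
  · rintro _ ⟨_, ⟨⟨g, -, rfl⟩, hg⟩, rfl⟩
    obtain ⟨b, hb, e⟩ := (Nat.dvd_prime_pow hq).1
      (orderOf_dvd_of_pow_eq_one (inj (by rw [map_pow, hg, map_one]) : g ^ q ^ a = 1))
    exact Set.mem_iUnion.2 ⟨⟨b, Nat.lt_succ_of_le hb⟩, _, ⟨g, e, rfl⟩, rfl⟩
  · refine (Finset.sum_le_card_nsmul _ _ (m + 1) fun b _ => h1 b).trans ?_
    rw [Finset.card_univ, Fintype.card_fin, smul_eq_mul]

/-- The preimages of the components. -/
def kr (R : Subgroup G) [R.Normal] (S : {S : Subgroup (G ⧸ R) // Comp ⊤ S}) : Subgroup G :=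
  S.1.comap (QuotientGroup.mk' R)

omit [Finite G] in
theorem map_kr [R.Normal] (S : {S : Subgroup (G ⧸ R) // Comp ⊤ S}) :
    (kr R S).map (QuotientGroup.mk' R) = S.1 :=
  Subgroup.map_comap_eq_self_of_surjective (QuotientGroup.mk'_surjective R) S.1

theorem Rad.perm_kr [R.Normal] (h : Rad R) (φ : MulAut G) :
    ∃ π : Equiv.Perm {S : Subgroup (G ⧸ R) // Comp ⊤ S},
      ∀ S, (kr R S).map φ.toMonoidHom = kr R (π S) := by
  obtain ⟨π, hπ⟩ := h.perm_kf φ
  have h1 : ∀ S, kr R S = kf R S ⊔ R := fun S => by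
    rw [kr, ← map_kf S, Subgroup.comap_map_eq, QuotientGroup.ker_mk']
  exact ⟨π, fun S => by rw [h1, h1, Subgroup.map_sup, hπ, h.map_eq]⟩

theorem Rad.gs [R.Normal] (h : Rad R)
    (hM : ∀ S : Subgroup (G ⧸ R), S.IsSubnormal → IsSimpleGroup S → Nat.card S ≤ M) :
    GS M R R (kr R) := by
  refine ⟨inferInstance, inferInstance, le_rfl, fun i x hx => ?_, fun i => ?_, fun i hi => ?_,
    fun i => ?_, fun i j hij => ?_, fun i => Subgroup.commutator_le_left _ _,
    fun g => h.perm_kr (MulAut.conj g)⟩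
  · rw [kr, Subgroup.mem_comap, show QuotientGroup.mk' R x = 1 from
      (QuotientGroup.eq_one_iff x).2 hx]
    exact Subgroup.one_mem _
  · rw [perf_le_sup, Subgroup.map_commutator, map_kr, i.2.perf.1]
  · exact i.2.perf.2.1 (map_kr i ▸ map_mk_eq_bot.2 hi)
  · have h2 := Subgroup.relIndex_ker (kr R i) (QuotientGroup.mk' R)
    rw [QuotientGroup.ker_mk', map_kr] at h2
    obtain ⟨N, hN, -, -, hS⟩ := i.2
    exact h2.le.trans (hM _ (Subgroup.IsSubnormal.step _ N hS.1 hN.1.isSubnormal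
      ⟨fun s hs n => hS.2.2.1 n n.2 s hs⟩) (hS.isSimpleGroup hN))
  · rw [← map_mk_eq_bot, Subgroup.map_commutator, map_kr, map_kr]
    exact i.2.comm_of_ne j.2 fun hh => hij (Subtype.ext hh)

theorem Rad.cm_kr [R.Normal] (h : Rad R) : cm (jn (kr R) Set.univ) R ≤ R := by
  have : (jn (kr R) Set.univ).Normal := jn_normal (invS_univ fun g => h.perm_kr (MulAut.conj g))
  rw [← map_mk_eq_bot]
  by_contra h0
  have := (cm_normal (jn (kr R) Set.univ) R).map _ (QuotientGroup.mk'_surjective R)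
  obtain ⟨N, hle, hN⟩ := exists_minNor h0
  obtain ⟨a, ha, b, hb, hab⟩ := h.na hN
  obtain ⟨c, hc, rfl⟩ := hle ha
  refine hab (comm_of_comp (L := ⊤) (fun S hS x hx => ?_) hN le_top (h.na hN) b hb).eq
  obtain ⟨k, rfl⟩ := QuotientGroup.mk'_surjective R x
  exact linb_commute.2 (mem_cm.1 hc k (le_jn (Λ := kr R) (i := ⟨S, hS⟩) (Set.mem_univ _) hx))

theorem small_orders (M m : ℕ) : ∃ B : ℕ, ∀ (G : Type) [Group G] [Finite G] (R : Subgroup G)
    [R.Normal], Group.IsSolvable R → (∀ N : Subgroup G, N.Normal → Group.IsSolvable N → N ≤ R) →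
    (∀ S : Subgroup (G ⧸ R), S.IsSubnormal → IsSimpleGroup S → Nat.card S ≤ M) →
    (∀ n ≤ M ^ 2, IsPrimePow n →
      (MulAction.orbit (MulAut G) '' {g : G | orderOf g = n}).ncard ≤ m) →
    R.index ≤ B := by
  obtain ⟨b, hb⟩ := amb_card M ((M + 3) * (m + 1))
  refine ⟨Nat.factorial (b * M), fun G _ _ R _ h1 h2 h3 h4 => ?_⟩
  have hR : Rad R := ⟨inferInstance, h1, h2⟩
  have h5 := hR.gs h3
  refine (Subgroup.index_antitone hR.cm_kr).trans (h5.index_cm_le.trans
    (Nat.factorial_le (Nat.mul_le_mul_right _ ?_)))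
  refine hb (Hol G) _ _ _ ((⊤ : Subgroup G).map SemidirectProduct.inl) _
    (h5.hol hR.map_eq hR.map_eq hR.perm_kr)
    (Group.isSolvable_of_surjective (MonoidHom.subgroupMap_surjective _ R))
    (Subgroup.map_mono le_top) (fun i => Subgroup.map_mono le_top) fun q hq hM => ?_
  have h6 : M ≠ 0 := (hq.pos.trans_le hM).ne'
  refine (om_hol_le hq ?_ h4).trans (Nat.mul_le_mul_right _ ?_)
  · rcases max_choice 2 (Nat.log q M) with e | e
    · rw [e]
      exact Nat.pow_le_pow_left hM 2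
    · rw [e]
      exact (Nat.pow_log_le_self q h6).trans (Nat.le_self_pow two_ne_zero M)
  · have := Nat.log_le_self q M
    omega

end Pool.Agent.Lib.MP_634dc6_al
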